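import Mathlib
import Pool.Agent.Helper311.Glue.Struct

set_option autoImplicit false

/-!
# There is no uniform bound on `c(F)`

Let `V = [m]^D` and let `f i : V → [r]` (`i < D`) be maps.  Join `x` and `y` if they differ in
exactly one coordinate, say the `i`-th, and `f i x ≠ f i y`.  This graph contains no `K_{r+1}`,
since every clique lies on a line of the Hamming graph, and its degrees are at most `D m`.  For
random `f` a set `I` of vertices is independent with probability at most
`r ^ (-D (|I| - |V| / m))`, hence for `D ≈ 2 log m / log r` there is no independent set of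
`2 |V| / m` vertices and the chromatic number is at least `m / 2 ≈ (log r / 4) Δ / log Δ`.
-/

namespace Pool.Agent.R400.NoUniform

open Finset Classical

/-- `x` and `y` differ in the coordinate `i` and in no other coordinate -/
def Line {D m : ℕ} (i : Fin D) (x y : Fin D → Fin m) : Prop :=
  x i ≠ y i ∧ ∀ j, j ≠ i → x j = y j

theorem Line.symm {D m : ℕ} {i : Fin D} {x y : Fin D → Fin m} (h : Line i x y) : Line i y x :=
  ⟨h.1.symm, fun j hj => (h.2 j hj).symm⟩

/-- the Hamming graph with the bichromatic pairs on each line -/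
def GG {D m r : ℕ} (f : Fin D → (Fin D → Fin m) → Fin r) : SimpleGraph (Fin D → Fin m) where
  Adj x y := ∃ i, Line i x y ∧ f i x ≠ f i y
  symm := ⟨fun _ _ ⟨i, h, h'⟩ => ⟨i, h.symm, h'.symm⟩⟩
  loopless := ⟨fun _ ⟨_, h, _⟩ => h.1 rfl⟩

/-- three vertices that pairwise lie on lines lie on a common line -/
theorem Line.triangle {D m : ℕ} {i j l : Fin D} {x y z : Fin D → Fin m} (h1 : Line i x y)
    (h2 : Line j x z) (h3 : Line l y z) : i = j ∧ i = l := by
  have hij : i = j := by
    by_contra hne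
    have a1 : y i ≠ z i := by
      rw [← h2.2 i hne]; exact h1.1.symm
    have a2 : y j ≠ z j := by
      rw [← h1.2 j (Ne.symm hne)]; exact h2.1
    have b1 : i = l := by
      by_contra hc
      exact a1 (h3.2 i hc)
    have b2 : j = l := by
      by_contra hc
      exact a2 (h3.2 j hc)
    exact hne (b1.trans b2.symm)
  refine ⟨hij, ?_⟩
  subst hij
  by_contra hc
  apply h3.1
  rw [← h1.2 l (Ne.symm hc), ← h2.2 l (Ne.symm hc)]

/-- the graph contains no `K_{r+1}` -/
theorem free {D m r : ℕ} (hr : 2 ≤ r) (f : Fin D → (Fin D → Fin m) → Fin r) :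
    (⊤ : SimpleGraph (Fin (r + 1))).Free (GG f) := by
  rintro ⟨φ⟩
  have hadj : ∀ a b : Fin (r + 1), a ≠ b → (GG f).Adj (φ a) (φ b) := fun a b hab =>
    φ.toHom.map_adj (by rw [SimpleGraph.top_adj]; exact hab)
  have h01 : (0 : Fin (r + 1)) ≠ 1 := by
    intro h
    have h' := congrArg Fin.val h
    rw [Fin.val_zero, Fin.val_one', Nat.mod_eq_of_lt (by omega)] at h'
    omega
  obtain ⟨i, hi, -⟩ := hadj 0 1 h01
  have key0 : ∀ a : Fin (r + 1), a ≠ 0 → Line i (φ 0) (φ a) ∧ f i (φ 0) ≠ f i (φ a) := by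
    intro a ha
    obtain ⟨j, hj, hjf⟩ := hadj 0 a (Ne.symm ha)
    by_cases h1 : a = 1
    · subst h1
      have : i = j := by
        by_contra hne
        exact hi.1 (hj.2 i hne)
      subst this
      exact ⟨hj, hjf⟩
    · obtain ⟨l, hl, -⟩ := hadj 1 a (Ne.symm h1)
      have : i = j := (hi.triangle hj hl).1
      subst this
      exact ⟨hj, hjf⟩
  have key : ∀ a b : Fin (r + 1), a ≠ b → f i (φ a) ≠ f i (φ b) := by
    intro a b hab
    by_cases ha : a = 0
    · subst ha
      exact (key0 b (Ne.symm hab)).2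
    · by_cases hb : b = 0
      · subst hb
        exact (key0 a ha).2.symm
      · obtain ⟨l, hl, hlf⟩ := hadj a b hab
        have : i = l := ((key0 a ha).1.triangle (key0 b hb).1 hl).2
        subst this
        exact hlf
  have hinj : Function.Injective (fun a : Fin (r + 1) => f i (φ a)) := by
    intro a b hab
    by_contra hne
    exact key a b hne hab
  have := Fintype.card_le_of_injective _ hinj
  rw [Fintype.card_fin, Fintype.card_fin] at this
  omega

/-- the degrees are at most `D m` -/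
theorem degree_le {D m r : ℕ} (f : Fin D → (Fin D → Fin m) → Fin r) [DecidableRel (GG f).Adj]
    (x : Fin D → Fin m) : (GG f).degree x ≤ D * m := by
  rw [← SimpleGraph.card_neighborFinset_eq_degree]
  have hsub : (GG f).neighborFinset x ⊆
      (univ : Finset (Fin D × Fin m)).image (fun p => Function.update x p.1 p.2) := by
    intro y hy
    rw [SimpleGraph.mem_neighborFinset] at hy
    obtain ⟨i, hi, -⟩ := hy
    rw [Finset.mem_image]
    refine ⟨(i, y i), Finset.mem_univ _, ?_⟩
    funext j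
    by_cases hj : j = i
    · subst hj
      simp
    · simp only [Function.update_of_ne hj]
      exact hi.2 j hj
  refine (Finset.card_le_card hsub).trans (Finset.card_image_le.trans ?_)
  rw [Finset.card_univ, Fintype.card_prod, Fintype.card_fin, Fintype.card_fin]

/-- restriction of a vertex to the coordinates other than `i`: the line in direction `i` -/
def res {D m : ℕ} (i : Fin D) (x : Fin D → Fin m) : {j // j ≠ i} → Fin m := fun j => x j

/-- the number of maps that are constant on the traces of `I` on the lines in direction `i` -/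
theorem count_dir {D m r : ℕ} (hr : 1 ≤ r) (i : Fin D) (I : Finset (Fin D → Fin m)) :
    Fintype.card {g : (Fin D → Fin m) → Fin r // ∀ x ∈ I, ∀ y ∈ I, Line i x y → g x = g y} ≤
      r ^ (m ^ D - I.card) * r ^ (m ^ (D - 1)) := by
  set L := {l : {j // j ≠ i} → Fin m // ∃ x ∈ I, res i x = l} with hL
  have hinj : Function.Injective
      (fun g : {g : (Fin D → Fin m) → Fin r // ∀ x ∈ I, ∀ y ∈ I, Line i x y → g x = g y} =>
        ((fun x : {x // x ∉ I} => g.1 x.1, fun l : L => g.1 (Classical.choose l.2)) :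
          ({x // x ∉ I} → Fin r) × (L → Fin r))) := by
    intro g g' hgg
    apply Subtype.ext
    funext x
    rw [Prod.mk.injEq] at hgg
    by_cases hx : x ∈ I
    · have hl : ∃ y ∈ I, res i y = res i x := ⟨x, hx, rfl⟩
      have h1 := congrFun hgg.2 ⟨res i x, hl⟩
      simp only at h1
      have hspec := Classical.choose_spec hl
      set y := Classical.choose hl with hy
      have h2 : ∀ g : {g : (Fin D → Fin m) → Fin r // ∀ x ∈ I, ∀ y ∈ I, Line i x y → g x = g y},
          g.1 x = g.1 y := by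
        intro g
        by_cases hxy : x i = y i
        · have : x = y := by
            funext j
            by_cases hj : j = i
            · rw [hj]; exact hxy
            · exact (congrFun hspec.2 ⟨j, hj⟩).symm
          rw [this]
        · exact g.2 x hx y hspec.1 ⟨hxy, fun j hj => (congrFun hspec.2 ⟨j, hj⟩).symm⟩
      rw [h2 g, h2 g']
      exact h1
    · exact congrFun hgg.1 ⟨x, hx⟩
  refine (Fintype.card_le_of_injective _ hinj).trans ?_
  rw [Fintype.card_prod, Fintype.card_fun, Fintype.card_fun, Fintype.card_fin]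
  refine Nat.mul_le_mul (le_of_eq ?_) (Nat.pow_le_pow_right hr ?_)
  · congr 1
    rw [Fintype.card_subtype_compl, Fintype.card_fun, Fintype.card_fin, Fintype.card_fin,
      Fintype.card_coe]
  · refine (Fintype.card_subtype_le _).trans (le_of_eq ?_)
    rw [Fintype.card_fun, Fintype.card_fin]
    congr 1
    have := Set.card_ne_eq i
    rw [Fintype.card_fin] at this
    exact this

/-- the number of families `f` for which `I` is independent -/
theorem count_all {D m r : ℕ} (hr : 1 ≤ r) (I : Finset (Fin D → Fin m)) :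
    (univ.filter (fun f : Fin D → (Fin D → Fin m) → Fin r =>
      ∀ x ∈ I, ∀ y ∈ I, ¬ (GG f).Adj x y)).card ≤
      (r ^ (m ^ D - I.card) * r ^ (m ^ (D - 1))) ^ D := by
  have h1 : (univ.filter (fun f : Fin D → (Fin D → Fin m) → Fin r =>
      ∀ x ∈ I, ∀ y ∈ I, ¬ (GG f).Adj x y)).card =
      Fintype.card {f : Fin D → (Fin D → Fin m) → Fin r //
        ∀ i, ∀ x ∈ I, ∀ y ∈ I, Line i x y → f i x = f i y} := by
    rw [Fintype.card_subtype]
    congr 1
    ext f
    simp only [Finset.mem_filter, Finset.mem_univ, true_and]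
    constructor
    · intro h i x hx y hy hxy
      by_contra hne
      exact h x hx y hy ⟨i, hxy, hne⟩
    · rintro h x hx y hy ⟨i, hxy, hne⟩
      exact hne (h i x hx y hy hxy)
  rw [h1, Fintype.card_congr (Equiv.subtypePiEquivPi (p := fun i (g : (Fin D → Fin m) → Fin r) =>
    ∀ x ∈ I, ∀ y ∈ I, Line i x y → g x = g y)), Fintype.card_pi]
  calc ∏ i : Fin D, Fintype.card {g : (Fin D → Fin m) → Fin r //
        ∀ x ∈ I, ∀ y ∈ I, Line i x y → g x = g y}
      ≤ ∏ _i : Fin D, (r ^ (m ^ D - I.card) * r ^ (m ^ (D - 1))) :=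
        Finset.prod_le_prod (fun _ _ => Nat.zero_le _) (fun i _ => count_dir hr i I)
    _ = _ := by rw [Finset.prod_const, Finset.card_univ, Fintype.card_fin]

theorem choose_lt (m q : ℕ) (hm : 1 ≤ m) (hq : 1 ≤ q) :
    (m * q).choose (2 * q) < (2 * m) ^ (2 * q) := by
  have h1 : ((m * q).choose (2 * q) : ℝ) ≤ ((m * q : ℕ) : ℝ) ^ (2 * q) / ((2 * q).factorial : ℝ) :=
    Nat.choose_le_pow_div _ _
  have h2 : ((2 * q : ℕ) : ℝ) ^ (2 * q) / ((2 * q).factorial : ℝ) ≤ Real.exp ((2 * q : ℕ) : ℝ) :=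
    Real.pow_div_factorial_le_exp _ (Nat.cast_nonneg _) _
  have h3 : Real.exp ((2 * q : ℕ) : ℝ) < 4 ^ (2 * q) := by
    rw [← Real.exp_one_pow]
    exact pow_lt_pow_left₀ (by have := Real.exp_one_lt_three; linarith) (Real.exp_pos _).le (by omega)
  have hm' : (0 : ℝ) < m := by exact_mod_cast hm
  have h4 : ((m * q : ℕ) : ℝ) ^ (2 * q) / ((2 * q).factorial : ℝ) =
      ((m : ℝ) / 2) ^ (2 * q) * (((2 * q : ℕ) : ℝ) ^ (2 * q) / ((2 * q).factorial : ℝ)) := by
    rw [← mul_div_assoc, ← mul_pow]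
    congr 2
    push_cast
    ring
  have h5 : ((m * q).choose (2 * q) : ℝ) < ((2 * m : ℕ) : ℝ) ^ (2 * q) := by
    calc ((m * q).choose (2 * q) : ℝ)
        ≤ ((m : ℝ) / 2) ^ (2 * q) * (((2 * q : ℕ) : ℝ) ^ (2 * q) / ((2 * q).factorial : ℝ)) := by
          rw [← h4]; exact h1
      _ < ((m : ℝ) / 2) ^ (2 * q) * 4 ^ (2 * q) :=
          mul_lt_mul_of_pos_left (lt_of_le_of_lt h2 h3) (by positivity)
      _ = ((2 * m : ℕ) : ℝ) ^ (2 * q) := by
          rw [← mul_pow]
          congr 1
          push_cast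
          ring
  exact_mod_cast h5

/-- a good family of maps -/
theorem exists_f (r k : ℕ) (hr : 2 ≤ r) (hk : 2 ≤ k) :
    ∃ f : Fin (2 * k) → (Fin (2 * k) → Fin (r ^ (k - 1))) → Fin r,
      ∀ I : Finset (Fin (2 * k) → Fin (r ^ (k - 1))),
        I.card = 2 * (r ^ (k - 1)) ^ (2 * k - 1) → ∃ x ∈ I, ∃ y ∈ I, (GG f).Adj x y := by
  set m := r ^ (k - 1) with hm
  set q := m ^ (2 * k - 1) with hq
  have hr0 : 0 < r := by omega
  have hm2 : 2 ≤ m := by
    calc 2 ≤ r := hr
      _ = r ^ 1 := (pow_one r).symm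
      _ ≤ r ^ (k - 1) := Nat.pow_le_pow_right hr0 (by omega)
  have hq1 : 1 ≤ q := Nat.one_le_pow _ _ (by omega)
  have hn : m ^ (2 * k) = m * q := by
    rw [hq, ← pow_succ']
    congr 1
    omega
  by_contra hcon
  push Not at hcon
  have hcov : (univ : Finset (Fin (2 * k) → (Fin (2 * k) → Fin m) → Fin r)) ⊆
      ((univ : Finset (Fin (2 * k) → Fin m)).powersetCard (2 * q)).biUnion
        (fun I => univ.filter (fun f => ∀ x ∈ I, ∀ y ∈ I, ¬ (GG f).Adj x y)) := by
    intro f _
    obtain ⟨I, hI, hind⟩ := hcon f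
    rw [Finset.mem_biUnion]
    refine ⟨I, Finset.mem_powersetCard.2 ⟨Finset.subset_univ _, hI⟩, ?_⟩
    rw [Finset.mem_filter]
    exact ⟨Finset.mem_univ _, hind⟩
  have h1 := (Finset.card_le_card hcov).trans Finset.card_biUnion_le
  have h2 : ∑ I ∈ (univ : Finset (Fin (2 * k) → Fin m)).powersetCard (2 * q),
      (univ.filter (fun f : Fin (2 * k) → (Fin (2 * k) → Fin m) → Fin r =>
        ∀ x ∈ I, ∀ y ∈ I, ¬ (GG f).Adj x y)).card ≤
      (m * q).choose (2 * q) * (r ^ (m * q - 2 * q) * r ^ q) ^ (2 * k) := by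
    refine (Finset.sum_le_card_nsmul _ _ ((r ^ (m * q - 2 * q) * r ^ q) ^ (2 * k)) ?_).trans
      (le_of_eq ?_)
    · intro I hI
      have := count_all (D := 2 * k) (m := m) (r := r) (by omega) I
      rw [(Finset.mem_powersetCard.1 hI).2, hn] at this
      exact this
    · rw [Finset.card_powersetCard, Finset.card_univ, Fintype.card_fun, Fintype.card_fin,
        Fintype.card_fin, hn, smul_eq_mul]
  have h3 : (univ : Finset (Fin (2 * k) → (Fin (2 * k) → Fin m) → Fin r)).card =
      (r ^ (m * q)) ^ (2 * k) := by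
    rw [Finset.card_univ, Fintype.card_fun, Fintype.card_fun, Fintype.card_fun, Fintype.card_fin,
      Fintype.card_fin, Fintype.card_fin, hn]
  rw [h3] at h1
  have h4 := h1.trans h2
  have h5 : 2 * q ≤ m * q := Nat.mul_le_mul_right _ hm2
  have h6 : (r ^ (m * q)) ^ (2 * k) = (r ^ (m * q - 2 * q) * r ^ q) ^ (2 * k) * (r ^ k) ^ (2 * q) := by
    have e1 : r ^ (m * q) = (r ^ (m * q - 2 * q) * r ^ q) * r ^ q := by
      rw [← pow_add, ← pow_add]
      congr 1
      omega
    rw [e1, mul_pow _ (r ^ q)]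
    congr 1
    rw [← pow_mul, ← pow_mul]
    congr 1
    ring
  have h7 : (m * q).choose (2 * q) < (r ^ k) ^ (2 * q) := by
    refine lt_of_lt_of_le (choose_lt m q (by omega) hq1) (Nat.pow_le_pow_left ?_ _)
    calc 2 * m ≤ r * m := Nat.mul_le_mul_right _ hr
      _ = r ^ k := by
          rw [hm, ← pow_succ']
          congr 1
          omega
  rw [h6, mul_comm] at h4
  have h8 : 0 < (r ^ (m * q - 2 * q) * r ^ q) ^ (2 * k) := by positivity
  exact absurd (Nat.le_of_mul_le_mul_right h4 h8) (not_le.2 h7)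

/-- a lower bound on the chromatic number -/
theorem colorable_bound (r k : ℕ) (hr : 2 ≤ r) (hk : 2 ≤ k)
    (f : Fin (2 * k) → (Fin (2 * k) → Fin (r ^ (k - 1))) → Fin r)
    (hf : ∀ I : Finset (Fin (2 * k) → Fin (r ^ (k - 1))),
        I.card = 2 * (r ^ (k - 1)) ^ (2 * k - 1) → ∃ x ∈ I, ∃ y ∈ I, (GG f).Adj x y)
    (N : ℕ) (hN : (GG f).Colorable N) : r ^ (k - 1) < 2 * N := by
  by_contra hcon
  push Not at hcon
  obtain ⟨C⟩ := hN
  have hm1 : 1 ≤ r ^ (k - 1) := Nat.one_le_pow _ _ (by omega)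
  have hN0 : (univ : Finset (Fin N)).Nonempty := ⟨C (fun _ => ⟨0, hm1⟩), Finset.mem_univ _⟩
  have hn : (r ^ (k - 1)) ^ (2 * k) = (r ^ (k - 1)) * (r ^ (k - 1)) ^ (2 * k - 1) := by
    rw [← pow_succ']
    congr 1
    omega
  obtain ⟨a, -, ha⟩ := Finset.exists_le_card_fiber_of_mul_le_card_of_maps_to
    (s := (univ : Finset (Fin (2 * k) → Fin (r ^ (k - 1))))) (t := (univ : Finset (Fin N)))
    (f := fun x => C x) (n := 2 * (r ^ (k - 1)) ^ (2 * k - 1)) (fun _ _ => Finset.mem_univ _) hN0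
    (by
      rw [Finset.card_univ, Finset.card_univ, Fintype.card_fun, Fintype.card_fin,
        Fintype.card_fin, Fintype.card_fin, hn]
      calc N * (2 * (r ^ (k - 1)) ^ (2 * k - 1)) = (2 * N) * (r ^ (k - 1)) ^ (2 * k - 1) := by ring
        _ ≤ _ := Nat.mul_le_mul_right _ hcon)
  obtain ⟨I, hI, hIc⟩ := Finset.exists_subset_card_eq ha
  obtain ⟨x, hx, y, hy, hxy⟩ := hf I hIc
  have h1 := (Finset.mem_filter.1 (hI hx)).2
  have h2 := (Finset.mem_filter.1 (hI hy)).2
  exact C.valid hxy (h1.trans h2.symm)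

theorem colorable_of_degree {V : Type} [Fintype V] (G : SimpleGraph V) [DecidableRel G.Adj] :
    G.Colorable (2 * G.maxDegree + 1) := by
  obtain ⟨γ, hγ1, hγ2⟩ := Pool.Agent.Helper311.Glue.degen (fun v : V => G.neighborFinset v)
    G.maxDegree (fun v => by
      rw [SimpleGraph.card_neighborFinset_eq_degree]
      exact G.degree_le_maxDegree v) (fun v => by simp) _ univ rfl
  refine ⟨SimpleGraph.Coloring.mk (fun v => (⟨γ v, hγ1 v⟩ : Fin (2 * G.maxDegree + 1))) ?_⟩
  intro u v huv h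
  exact hγ2 u (Finset.mem_univ _) v (Finset.mem_univ _) (by
    rw [SimpleGraph.mem_neighborFinset]; exact huv) (congrArg Fin.val h)

theorem mono_div_log {a b : ℝ} (ha : 3 ≤ a) (hab : a ≤ b) : a / Real.log a ≤ b / Real.log b := by
  have he : Real.exp 1 ≤ 3 := Real.exp_one_lt_three.le
  have h := Real.log_div_self_antitoneOn (show Real.exp 1 ≤ a by linarith)
    (show Real.exp 1 ≤ b by linarith) hab
  simp only at h
  have hla : 0 < Real.log a := Real.log_pos (by linarith)
  have hlb : 0 < Real.log b := Real.log_pos (by linarith)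
  rw [div_le_div_iff₀ (by linarith) (by linarith)] at h
  rw [div_le_div_iff₀ hla hlb]
  linarith

theorem numeric (c : ℝ) (hc : 0 < c) (r k m Δ n : ℕ) (hrlog : 8 * c < Real.log r) (hk2 : 2 ≤ k)
    (hm : m = r ^ (k - 1)) (hm1 : 1 ≤ m) (h1 : m < 2 * n) (h2 : Δ ≤ 2 * k * m) (h3 : 3 ≤ Δ) :
    c * ((Δ : ℝ) / Real.log (Δ : ℝ)) < n := by
  have hm1' : (1 : ℝ) ≤ m := by exact_mod_cast hm1
  have hk0 : (2 : ℝ) ≤ k := by exact_mod_cast hk2
  have h3' : (3 : ℝ) ≤ Δ := by exact_mod_cast h3
  have h4 := mono_div_log h3' (show (Δ : ℝ) ≤ ((2 * k * m : ℕ) : ℝ) by exact_mod_cast h2)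
  have h5 : ((2 * k * m : ℕ) : ℝ) = 2 * k * m := by push_cast; ring
  rw [h5] at h4
  have h6 : Real.log m = (k - 1 : ℝ) * Real.log r := by
    rw [hm, Nat.cast_pow, Real.log_pow, Nat.cast_sub (by omega), Nat.cast_one]
  have h7 : Real.log m ≤ Real.log (2 * k * m) := by
    apply Real.log_le_log (by linarith)
    nlinarith
  have h8 : 4 * c * k < Real.log (2 * k * m) := by
    refine lt_of_lt_of_le ?_ h7
    rw [h6]
    have h9 : (k : ℝ) / 2 ≤ k - 1 := by linarith
    calc 4 * c * k = (k / 2) * (8 * c) := by ring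
      _ < (k / 2) * Real.log r := mul_lt_mul_of_pos_left hrlog (by linarith)
      _ ≤ (k - 1) * Real.log r := mul_le_mul_of_nonneg_right h9 (by linarith)
  have h9 : 0 < Real.log (2 * k * m) := lt_trans (by positivity) h8
  have h10 : c * (2 * k * m / Real.log (2 * k * m)) < m / 2 := by
    rw [← mul_div_assoc, div_lt_iff₀ h9]
    calc c * (2 * k * m) = (m / 2) * (4 * c * k) := by ring
      _ < (m / 2) * Real.log (2 * k * m) := mul_lt_mul_of_pos_left h8 (by linarith)
  have h11 : (m : ℝ) / 2 < n := by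
    have : (m : ℝ) < 2 * n := by exact_mod_cast h1
    linarith
  calc c * ((Δ : ℝ) / Real.log (Δ : ℝ))
      ≤ c * (2 * k * m / Real.log (2 * k * m)) := mul_le_mul_of_nonneg_left h4 hc.le
    _ < m / 2 := h10
    _ < n := h11

/-- For every `c` there is `r` such that for all `Δ₀` there is a finite `K_{r+1}`-free graph whose
maximum degree `Δ` is at least `Δ₀` and whose chromatic number is larger than `c Δ / log Δ`. -/
theorem main (c : ℝ) (hc : 0 < c) : ∃ r : ℕ, ∀ Δ₀ : ℕ,
    ∃ (V : Type) (_ : Fintype V) (G : SimpleGraph V) (_ : DecidableRel G.Adj),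
      (⊤ : SimpleGraph (Fin (r + 1))).Free G ∧ Δ₀ ≤ G.maxDegree ∧
      ∀ n : ℕ, G.Colorable n → c * ((G.maxDegree : ℝ) / Real.log (G.maxDegree : ℝ)) < n := by
  obtain ⟨r, hr2, hrlog⟩ : ∃ r : ℕ, 2 ≤ r ∧ 8 * c < Real.log r := by
    refine ⟨⌈Real.exp (8 * c)⌉₊ + 2, by omega, ?_⟩
    rw [Real.lt_log_iff_exp_lt (by positivity)]
    push_cast
    have := Nat.le_ceil (Real.exp (8 * c))
    linarith
  refine ⟨r, fun Δ₀ => ?_⟩
  obtain ⟨k, hk⟩ : ∃ k : ℕ, k = 4 * max Δ₀ 3 + 10 := ⟨_, rfl⟩
  have hk2 : 2 ≤ k := by omega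
  obtain ⟨f, hf⟩ := exists_f r k hr2 hk2
  have hcol := colorable_bound r k hr2 hk2 f hf
  have hk_le : k ≤ r ^ (k - 1) := by
    have h1 : k - 1 < 2 ^ (k - 1) := Nat.lt_two_pow_self
    have h2 : 2 ^ (k - 1) ≤ r ^ (k - 1) := Nat.pow_le_pow_left hr2 _
    omega
  have hdec : DecidableRel (GG f).Adj := Classical.decRel _
  have h0 := hcol _ (colorable_of_degree (GG f))
  have h2 : (GG f).maxDegree ≤ 2 * k * r ^ (k - 1) :=
    (GG f).maxDegree_le_of_forall_degree_le _ (fun x => degree_le f x)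
  have hΔ : max Δ₀ 3 + 2 ≤ (GG f).maxDegree := by
    generalize (GG f).maxDegree = Δ at h0 ⊢
    generalize r ^ (k - 1) = m at h0 hk_le
    omega
  refine ⟨_, inferInstance, GG f, hdec, free hr2 f, ?_, ?_⟩
  · exact (le_max_left Δ₀ 3).trans ((Nat.le_add_right _ 2).trans hΔ)
  · intro n hn
    exact numeric c hc r k (r ^ (k - 1)) _ n hrlog hk2 rfl ((by omega : 1 ≤ k).trans hk_le)
      (hcol n hn) h2 ((le_max_right Δ₀ 3).trans ((Nat.le_add_right _ 2).trans hΔ))

end Pool.Agent.R400.NoUniform
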