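import Mathlib

/-! Laplace expansion of the permanent along the first column, and a list algorithm. -/

open Equiv Finset Matrix

namespace Pool.Agent.R400

variable {R : Type*} [CommSemiring R]

theorem permanent_succ {n : ℕ} (M : Matrix (Fin (n+1)) (Fin (n+1)) R) :
    M.permanent = ∑ p : Fin (n+1), M p 0 * (M.submatrix p.succAbove Fin.succ).permanent := by
  have h1 : M.permanent = ∑ q : Fin (n+1) × Perm (Fin n),
      M q.1 0 * ∏ i : Fin n, M (swap 0 q.1 (q.2 i).succ) i.succ := by
    unfold Matrix.permanent
    rw [← Equiv.sum_comp Perm.decomposeFin.symm]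
    refine Finset.sum_congr rfl fun q _ => ?_
    rw [Fin.prod_univ_succ]
    obtain ⟨p, e⟩ := q
    simp [Perm.decomposeFin_symm_apply_zero, Perm.decomposeFin_symm_apply_succ]
  rw [h1, Fintype.sum_prod_type]
  refine Finset.sum_congr rfl fun p _ => ?_
  change ∑ e : Perm (Fin n), M p 0 * ∏ i : Fin n, M (swap 0 p (e i).succ) i.succ = _
  rw [← Finset.mul_sum]
  congr 1
  refine Fin.cases ?_ (fun i => ?_) p
  · simp [Matrix.permanent]
  · have : (∑ e : Perm (Fin n), ∏ k : Fin n, M (swap 0 i.succ (e k).succ) k.succ)
        = ((M.submatrix i.succ.succAbove Fin.succ).submatrix i.cycleRange id).permanent := by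
      unfold Matrix.permanent
      refine Finset.sum_congr rfl fun e _ => Finset.prod_congr rfl fun k _ => ?_
      simp only [Matrix.submatrix_apply, id]
      rw [Fin.succAbove_cycleRange]
    rw [this, Matrix.permanent_permute_cols]

/-- all ways to pick one entry of a list, with the remaining entries. -/
def picks {α : Type*} : List α → List (α × List α)
  | [] => []
  | a :: l => (a, l) :: (picks l).map (fun q => (q.1, a :: q.2))

theorem picks_ofFn {α : Type*} : ∀ (n : ℕ) (f : Fin (n+1) → α),
    picks (List.ofFn f) = List.ofFn (fun i : Fin (n+1) => (f i, List.ofFn (fun k => f (i.succAbove k))))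
  | 0, f => by simp [picks]
  | n+1, f => by
      rw [List.ofFn_succ, picks, picks_ofFn n, List.map_ofFn, List.ofFn_succ (n := n+1)]
      congr 1
      congr 1
      funext i
      simp only [Function.comp]
      rw [List.ofFn_succ (f := fun k => f (i.succ.succAbove k))]
      simp [Fin.succ_succAbove_succ]

/-- The permanent of a list of rows, by expansion along the first column. -/
def cp : ℕ → List (List R) → R
  | 0, _ => 1
  | n+1, rows => ((picks rows).map (fun q => q.1.headD 0 * cp n (q.2.map List.tail))).sum

theorem cp_ofFn : ∀ (n : ℕ) (M : Matrix (Fin n) (Fin n) R),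
    cp n (List.ofFn fun i => List.ofFn fun j => M i j) = M.permanent
  | 0, M => by simp [cp, Matrix.permanent_isEmpty]
  | n+1, M => by
      rw [cp, picks_ofFn, List.map_ofFn, List.sum_ofFn, permanent_succ]
      refine Finset.sum_congr rfl fun p _ => ?_
      simp only [Function.comp, List.map_ofFn]
      rw [← cp_ofFn n]
      congr 1
      · simp [List.ofFn_succ]
      · congr 2
        funext k
        simp [List.ofFn_succ, Function.comp]

end Pool.Agent.R400
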